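import Pool.Agent.R539.BB.P7

/-!
# Bohr sets in `2A - 2A` for sets of large additive energy, with optimal radius

Let `A ⊆ ℤ/N` be nonempty with density `α = |A|/N ≤ 1/2` and let `K ≥ 1` be such that the additive energy of `A`
is at least `|A|^3 / K` or `|A + A| ≤ K |A|`. Then `2A - 2A` contains a Bohr set `B(Γ, ρ)` with

  `|Γ| ≤ 10^12 (log (1/α) + log (2K)^4)`,  `ρ = 1 / (10^15 (log (1/α) + log (2K)^4))`.

So the conclusion of Q1 holds for all sets with energy at least `|A|^3 exp (-(D log (1/α))^(1/4))`, `D` fixed, and for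
all sets `A` with a subset of density at least `α^D` which has this property.

Proof. The Balog–Szemerédi–Gowers theorem gives a subset `B` with `|B - B| ≤ K^O(1) |B|`; the almost periodicity
theorem of Croot and Sisask, with sampling from `B`, gives a set `X` with `|X| ≥ |B| exp (-O(log (2K)^4))` of almost
periods of the indicator function of `B - B`, and the theorem of Chang shows that the large spectrum of `X` is
controlled by `O(log (1/α) + log (2K)^4)` characters. The usual end of the argument compares Fourier coefficients and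
loses a factor `K` in the radius, because the sum of the moduli of the relevant coefficients can be as large as a power
of `K`. Here this loss is avoided: the part of the function with frequencies in the large spectrum is bounded by an
absolute constant (it differs little from a probability), and a bounded function of `t ∈ ℤ`, `t ↦ F (t z)`, with
frequencies near `0` hardly changes from `t = 0` to `t = 1` by an inequality of Bernstein type, which is proved with
the Fourier series of the triangular wave.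
-/

set_option autoImplicit false

open Finset
open scoped Pointwise

namespace Pool.Agent.Results.MP_169871_nt.EnergyQuarterPower

/-- The Bohr set `B(Γ, ε) = {x ∈ ℤ/N : ‖γ x / N‖ ≤ ε for all γ ∈ Γ}`; the norm is the distance to the nearest
integer. -/
def bohr {N : ℕ} (Γ : Finset (ZMod N)) (ε : ℝ) : Set (ZMod N) :=
  {x | ∀ γ ∈ Γ, |((γ * x).val : ℝ) / (N : ℝ) - ((round (((γ * x).val : ℝ) / (N : ℝ)) : ℤ) : ℝ)| ≤ ε}

/-- The set `2A - 2A`. -/
def twoAMinusTwoA {N : ℕ} (A : Finset (ZMod N)) : Set (ZMod N) :=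
  {x | ∃ a₁ ∈ A, ∃ a₂ ∈ A, ∃ a₃ ∈ A, ∃ a₄ ∈ A, x = a₁ + a₂ - a₃ - a₄}

/-- The number of `(a₁, a₂, a₃, a₄) ∈ A⁴` with `a₁ + a₂ = a₃ + a₄`. -/
def energy {N : ℕ} (A : Finset (ZMod N)) : ℕ :=
  ((A ×ˢ A ×ˢ A ×ˢ A).filter fun p => p.1 + p.2.1 = p.2.2.1 + p.2.2.2).card

/-- The sumset `A + A`. -/
def twoA {N : ℕ} (A : Finset (ZMod N)) : Finset (ZMod N) := (A ×ˢ A).image fun p => p.1 + p.2

/-- The additive energy of `A` is at least `|A|^3 / K`, or the doubling constant of `A` is at most `K`. -/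
def Structured {N : ℕ} (A : Finset (ZMod N)) (K : ℝ) : Prop :=
  (A.card : ℝ) ^ 3 ≤ K * energy A ∨ ((twoA A).card : ℝ) ≤ K * A.card

theorem le_energy {N : ℕ} (A : Finset (ZMod N)) : A.addEnergy A ≤ energy A := by
  unfold energy Finset.addEnergy
  apply Finset.card_le_card_of_injOn (fun p => (p.1.1, p.2.1, p.1.2, p.2.2))
  · intro p hp
    rw [Finset.mem_coe, Finset.mem_filter, Finset.mem_product, Finset.mem_product, Finset.mem_product] at hp
    rw [Finset.mem_coe, Finset.mem_filter, Finset.mem_product, Finset.mem_product, Finset.mem_product]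
    exact ⟨⟨hp.1.1.1, hp.1.2.1, hp.1.1.2, hp.1.2.2⟩, hp.2⟩
  · rintro ⟨⟨a, b⟩, c, d⟩ _ ⟨⟨a', b'⟩, c', d'⟩ _ h
    simp only [Prod.mk.injEq] at h ⊢
    tauto

theorem energy_of_structured {N : ℕ} (A : Finset (ZMod N)) (hA : A.Nonempty) (K : ℝ) (h : Structured A K) :
    (A.card : ℝ) ^ 3 ≤ K * energy A := by
  rcases h with h | h
  · exact h
  · have hAc : (0 : ℝ) < A.card := by exact_mod_cast hA.card_pos
    have h1 : twoA A = A + A := by
      ext x
      rw [Finset.mem_add]
      unfold twoA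
      rw [Finset.mem_image]
      constructor
      · rintro ⟨p, hp, rfl⟩
        rw [Finset.mem_product] at hp
        exact ⟨p.1, hp.1, p.2, hp.2, rfl⟩
      · rintro ⟨a, ha, b, hb, rfl⟩
        exact ⟨(a, b), Finset.mem_product.2 ⟨ha, hb⟩, rfl⟩
    rw [h1] at h
    have h2 : ((A.card : ℝ)) ^ 2 * (A.card : ℝ) ^ 2 ≤ ((A + A).card : ℝ) * (A.addEnergy A : ℕ) := by
      exact_mod_cast Finset.le_card_add_mul_addEnergy A A
    have h3 : ((A.addEnergy A : ℕ) : ℝ) ≤ energy A := by exact_mod_cast le_energy A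
    have h4 : (A.card : ℝ) ^ 3 * A.card ≤ (K * energy A) * A.card := by
      calc (A.card : ℝ) ^ 3 * A.card = (A.card : ℝ) ^ 2 * (A.card : ℝ) ^ 2 := by ring
        _ ≤ ((A + A).card : ℝ) * (A.addEnergy A : ℕ) := h2
        _ ≤ (K * A.card) * energy A := mul_le_mul h h3 (by positivity) (le_trans (by positivity) h)
        _ = _ := by ring
    exact le_of_mul_le_mul_right h4 hAc

theorem bohr_mono {N : ℕ} (Γ : Finset (ZMod N)) {ε δ : ℝ} (h : ε ≤ δ) : bohr Γ ε ⊆ bohr Γ δ :=
  fun _ hx γ hγ => (hx γ hγ).trans h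

/-- (1) The conclusion of Q1 for the sets `A` which contain a set `A'` with energy at least `|A'|^3 / K` or doubling at
most `K`, where `log (N / |A'|) + log (2K)^4 ≤ D log (N / |A|)`. (2) The bound for all `K`. -/
theorem result :
    (∀ (N : ℕ), 0 < N → ∀ A A' : Finset (ZMod N), A'.Nonempty → A' ⊆ A → (A.card : ℝ) / (N : ℝ) ≤ 1 / 2 →
      ∀ K D : ℝ, 1 ≤ K → Structured A' K →
        Real.log ((N : ℝ) / (A'.card : ℝ)) + Real.log (2 * K) ^ 4 ≤ D * Real.log ((N : ℝ) / (A.card : ℝ)) →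
        ∃ Γ : Finset (ZMod N),
          (Γ.card : ℝ) ≤ 10 ^ 12 * D * Real.log ((N : ℝ) / (A.card : ℝ)) ∧
          bohr Γ (1 / (10 ^ 15 * D * Real.log ((N : ℝ) / (A.card : ℝ)))) ⊆ twoAMinusTwoA A) ∧
    (∀ (N : ℕ), 0 < N → ∀ A : Finset (ZMod N), A.Nonempty → (A.card : ℝ) / (N : ℝ) ≤ 1 / 2 →
      ∀ K : ℝ, 1 ≤ K → Structured A K →
        ∃ Γ : Finset (ZMod N),
          (Γ.card : ℝ) ≤ 10 ^ 12 * (Real.log ((N : ℝ) / (A.card : ℝ)) + Real.log (2 * K) ^ 4) ∧
          bohr Γ (1 / (10 ^ 15 * (Real.log ((N : ℝ) / (A.card : ℝ)) + Real.log (2 * K) ^ 4))) ⊆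
            twoAMinusTwoA A) := by
  have key : ∀ (N : ℕ), 0 < N → ∀ A : Finset (ZMod N), A.Nonempty → (A.card : ℝ) / (N : ℝ) ≤ 1 / 2 →
      ∀ K : ℝ, 1 ≤ K → Structured A K →
        ∃ Γ : Finset (ZMod N),
          (Γ.card : ℝ) ≤ 10 ^ 12 * (Real.log ((N : ℝ) / (A.card : ℝ)) + Real.log (2 * K) ^ 4) ∧
          bohr Γ (1 / (10 ^ 15 * (Real.log ((N : ℝ) / (A.card : ℝ)) + Real.log (2 * K) ^ 4))) ⊆
            twoAMinusTwoA A := by
    intro N hN A hA hd K hK h
    exact R539.BB.rank2 R539.BB.gen2 N hN A hA hd K hK (energy_of_structured A hA _ h)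
  refine ⟨?_, key⟩
  intro N hN A A' hA' hsub hd K D hK h hD
  have hNr : (0 : ℝ) < N := by exact_mod_cast hN
  have hAc' : (0 : ℝ) < A'.card := by exact_mod_cast hA'.card_pos
  have hle : (A'.card : ℝ) ≤ A.card := by exact_mod_cast Finset.card_le_card hsub
  have hd' : (A'.card : ℝ) / (N : ℝ) ≤ 1 / 2 := (div_le_div_of_nonneg_right hle hNr.le).trans hd
  obtain ⟨Γ, h1, h2⟩ := key N hN A' hA' hd' K hK h
  obtain ⟨Q, hQ⟩ : ∃ Q : ℝ, Q = Real.log ((N : ℝ) / (A'.card : ℝ)) + Real.log (2 * K) ^ 4 := ⟨_, rfl⟩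
  rw [← hQ] at h1 h2 hD
  have hQ0 : 0 < Q := by
    rw [hQ]
    have h3 := R539.BB.log_card hN A' hA' hd'
    have h4 : 0 ≤ Real.log (2 * K) ^ 4 := by positivity
    linarith
  refine ⟨Γ, ?_, ?_⟩
  · calc (Γ.card : ℝ) ≤ 10 ^ 12 * Q := h1
      _ ≤ 10 ^ 12 * (D * Real.log ((N : ℝ) / (A.card : ℝ))) := by gcongr
      _ = _ := by ring
  · refine (bohr_mono Γ ?_).trans (h2.trans ?_)
    · apply one_div_le_one_div_of_le (by positivity)
      rw [mul_assoc]
      gcongr
    · rintro x ⟨a₁, h1, a₂, h2, a₃, h3, a₄, h4, h5⟩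
      exact ⟨a₁, hsub h1, a₂, hsub h2, a₃, hsub h3, a₄, hsub h4, h5⟩

end Pool.Agent.Results.MP_169871_nt.EnergyQuarterPower
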